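import Pool.Agent.V11152.EXa

/-!
# The graphs of elementary moves on 0/1-polytopes are not expanders

The conductance of `Λ(d, 1)` tends to `0` along a sequence of dimensions `d`.
-/

set_option autoImplicit false

open Finset

namespace Pool.Agent.Results.MP_f22ace_co.FixedCube

open Pool.Agent.V11152.EX

noncomputable instance fin (d k : ℕ) : Fintype (Pol d k) := Fintype.ofFinite _

open Classical in
/-- the degree of a polytope in the graph of elementary moves -/
noncomputable def deg {d k : ℕ} (V : Pol d k) : ℕ :=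
  (univ.filter (fun W => (Lam d k).Adj V W)).card

/-- the volume of a set of polytopes -/
noncomputable def vol {d k : ℕ} (S : Finset (Pol d k)) : ℕ := ∑ V ∈ S, deg V

open Classical in
/-- the number of edges between a set of polytopes and its complement -/
noncomputable def cut {d k : ℕ} (S : Finset (Pol d k)) : ℕ :=
  ((univ : Finset (Pol d k × Pol d k)).filter
    (fun p => p.1 ∈ S ∧ p.2 ∉ S ∧ (Lam d k).Adj p.1 p.2)).card


lemma card_Box1 (d : ℕ) : (Box d 1).card = 2 ^ d := by
  rw [Box, Fintype.card_piFinset]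
  simp

lemma mem_Box1 {d : ℕ} {x : Fin d → ℤ} : x ∈ Box d 1 ↔ ∀ i, x i = 0 ∨ x i = 1 := by
  rw [Box, Fintype.mem_piFinset]
  constructor
  · intro h i
    have := mem_Icc.1 (h i)
    push_cast at this
    omega
  · intro h i
    rw [mem_Icc]
    push_cast
    rcases h i with h | h <;> omega

/-- the points of the unit cube are convexly independent -/
lemma ver1 {d : ℕ} (V : Finset (Fin d → ℤ)) (hV : V ⊆ Box d 1) (x : Fin d → ℤ) (hx : x ∈ V) :
    emb x ∉ convexHull ℝ (emb '' ((V : Set (Fin d → ℤ)) \ {x})) := by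
  intro h
  let g : (Fin d → ℝ) →ₗ[ℝ] ℝ := ∑ i, (2 * (x i : ℝ) - 1) • LinearMap.proj i
  have hg : ∀ v, g v = ∑ i, (2 * (x i : ℝ) - 1) * v i := by
    intro v
    simp [g]
  have hsub : convexHull ℝ (emb '' ((V : Set (Fin d → ℤ)) \ {x})) ⊆ {v | g v < g (emb x)} := by
    apply convexHull_min _ (convex_halfSpace_lt g.isLinear _)
    rintro _ ⟨y, ⟨hy, hne⟩, rfl⟩
    have hy1 := mem_Box1.1 (hV hy)
    have hx1 := mem_Box1.1 (hV hx)
    show g (emb y) < g (emb x)
    rw [hg, hg]
    have hle : ∀ i, (2 * (x i : ℝ) - 1) * emb y i ≤ (2 * (x i : ℝ) - 1) * emb x i := by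
      intro i
      unfold emb
      rcases hx1 i with h1 | h1 <;> rcases hy1 i with h2 | h2 <;> rw [h1, h2] <;> norm_num
    have hlt : ∃ i, (2 * (x i : ℝ) - 1) * emb y i < (2 * (x i : ℝ) - 1) * emb x i := by
      have hne' : y ≠ x := hne
      obtain ⟨i, hi⟩ := Function.ne_iff.1 hne'
      refine ⟨i, ?_⟩
      unfold emb
      rcases hx1 i with h1 | h1 <;> rcases hy1 i with h2 | h2 <;> rw [h1, h2] <;>
        first | exact absurd (h2.trans h1.symm) hi | norm_num
    obtain ⟨i, hi⟩ := hlt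
    exact Finset.sum_lt_sum (fun i _ => hle i) ⟨i, mem_univ i, hi⟩
  have h5 : g (emb x) < g (emb x) := hsub h
  exact lt_irrefl _ h5

lemma full_mono {d : ℕ} {V W : Finset (Fin d → ℤ)} (h : V ⊆ W)
    (hV : affineSpan ℝ (emb '' (V : Set (Fin d → ℤ))) = ⊤) :
    affineSpan ℝ (emb '' (W : Set (Fin d → ℤ))) = ⊤ := by
  rw [eq_top_iff, ← hV]
  exact affineSpan_mono ℝ (Set.image_mono (by exact_mod_cast h))

open Classical in
lemma deg1 {d : ℕ} (V : Pol d 1) : 2 ^ d - V.1.card ≤ deg V := by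
  have h1 : (Box d 1 \ V.1).card = 2 ^ d - V.1.card := by
    rw [card_sdiff_of_subset (sub_Box V), card_Box1]
  rw [← h1]
  unfold deg
  have hp : ∀ x ∈ Box d 1 \ V.1, IsPoly d 1 (insert x V.1) := by
    intro x hx
    have hsub : insert x V.1 ⊆ Box d 1 := by
      intro y hy
      rcases mem_insert.1 hy with h | h
      · rw [h]; exact (mem_sdiff.1 hx).1
      · exact sub_Box V h
    refine ⟨?_, fun y hy => ver1 _ hsub y hy, full_mono (subset_insert _ _) V.2.full⟩
    intro y hy i
    rcases mem_Box1.1 (hsub hy) i with h | h <;> rw [h] <;> norm_num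
  apply Finset.card_le_card_of_injOn
    (fun x => if h : x ∈ Box d 1 \ V.1 then (⟨insert x V.1, hp x h⟩ : Pol d 1) else V)
  · intro x hx
    have hx' : x ∈ Box d 1 \ V.1 := hx
    simp only [coe_filter, mem_univ, true_and, Set.mem_ofPred_eq]
    rw [dif_pos hx']
    exact Or.inl ⟨x, (mem_sdiff.1 hx').2, rfl⟩
  · intro x hx y hy hxy
    have hx' : x ∈ Box d 1 \ V.1 := hx
    have hy' : y ∈ Box d 1 \ V.1 := hy
    simp only [dif_pos hx', dif_pos hy', Subtype.mk.injEq] at hxy
    have h2 : x ∈ insert y V.1 := by rw [← hxy]; exact mem_insert_self _ _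
    rcases mem_insert.1 h2 with h | h
    · exact h
    · exact absurd h (mem_sdiff.1 hx').2

lemma small_le (d r : ℕ) (A : Finset (Pol d 1)) :
    (A.filter (fun V => 2 ^ d - V.1.card ≤ r)).card ≤ (r + 1) * (2 ^ d) ^ r := by
  classical
  have h1 : (A.filter (fun V => 2 ^ d - V.1.card ≤ r)).card ≤
      ((range (r + 1)).biUnion (fun i => powersetCard i (Box d 1))).card := by
    apply Finset.card_le_card_of_injOn (fun V => Box d 1 \ V.1)
    · intro V hV
      have hV' := (mem_filter.1 (mem_coe.1 hV)).2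
      rw [mem_coe, mem_biUnion]
      refine ⟨(Box d 1 \ V.1).card, ?_, mem_powersetCard.2 ⟨sdiff_subset, rfl⟩⟩
      rw [mem_range, card_sdiff_of_subset (sub_Box V), card_Box1]
      omega
    · intro V _ W _ h
      apply Subtype.ext
      have h2 : Box d 1 \ (Box d 1 \ V.1) = Box d 1 \ (Box d 1 \ W.1) := by
        have h3 : Box d 1 \ V.1 = Box d 1 \ W.1 := h
        rw [h3]
      rwa [Finset.sdiff_sdiff_eq_self (sub_Box V), Finset.sdiff_sdiff_eq_self (sub_Box W)] at h2
  refine h1.trans (card_biUnion_le.trans ?_)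
  have h2 : ∀ i ∈ range (r + 1), (powersetCard i (Box d 1)).card ≤ (2 ^ d) ^ r := by
    intro i hi
    rw [mem_range] at hi
    rw [card_powersetCard, card_Box1]
    exact (Nat.choose_le_pow _ _).trans (Nat.pow_le_pow_right (by positivity) (by omega))
  calc _ ≤ ∑ _i ∈ range (r + 1), (2 ^ d) ^ r := sum_le_sum h2
    _ = _ := by rw [sum_const, card_range, smul_eq_mul]

/-- the corner `a` and its neighbours -/
def star (d : ℕ) (a : ℤ) : Finset (Fin d → ℤ) :=
  insert (fun _ => a) (univ.image (fun i : Fin d => Function.update (fun _ => a) i (1 - a)))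

lemma star_card (d : ℕ) (a : ℤ) : (star d a).card ≤ d + 1 := by
  refine (card_insert_le _ _).trans ?_
  have := (card_image_le (s := (univ : Finset (Fin d)))
    (f := fun i : Fin d => Function.update (fun _ => a) i (1 - a)))
  rw [card_univ, Fintype.card_fin] at this
  omega

lemma star_full (d : ℕ) (a : ℤ) (ha : a = 0 ∨ a = 1) :
    affineSpan ℝ (emb '' (star d a : Set (Fin d → ℤ))) = ⊤ := by
  have hne : (emb '' (star d a : Set (Fin d → ℤ))).Nonempty :=
    ⟨_, ⟨_, mem_coe.2 (mem_insert_self _ _), rfl⟩⟩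
  rw [AffineSubspace.affineSpan_eq_top_iff_vectorSpan_eq_top_of_nonempty ℝ _ _ hne, eq_top_iff,
    ← (Pi.basisFun ℝ (Fin d)).span_eq, Submodule.span_le]
  rintro _ ⟨i, rfl⟩
  have h1 := vsub_mem_vectorSpan ℝ
    (show emb (Function.update (fun _ => a) i (1 - a)) ∈ emb '' (star d a : Set (Fin d → ℤ)) from
      ⟨_, mem_coe.2 (mem_insert_of_mem (mem_image.2 ⟨i, mem_univ _, rfl⟩)), rfl⟩)
    (show emb (fun _ => a) ∈ emb '' (star d a : Set (Fin d → ℤ)) from
      ⟨_, mem_coe.2 (mem_insert_self _ _), rfl⟩)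
  have h2 := Submodule.smul_mem _ ((1 - 2 * (a : ℝ))) h1
  have h3 : (Pi.basisFun ℝ (Fin d)) i = (1 - 2 * (a : ℝ)) •
      (emb (Function.update (fun _ => a) i (1 - a)) -ᵥ emb (fun _ => a) : Fin d → ℝ) := by
    ext j
    rw [Pi.basisFun_apply]
    simp only [emb, vsub_eq_sub, Pi.smul_apply, Pi.sub_apply, smul_eq_mul]
    by_cases hj : j = i
    · subst hj
      rw [Pi.single_eq_same, Function.update_self]
      rcases ha with h | h <;> rw [h] <;> norm_num
    · rw [Pi.single_eq_of_ne hj, Function.update_of_ne hj, sub_self, mul_zero]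
  rw [SetLike.mem_coe, h3]
  exact h2

lemma star_sub (d : ℕ) (a : ℤ) (ha : a = 0 ∨ a = 1) : star d a ⊆ Box d 1 := by
  intro x hx
  rw [mem_Box1]
  intro i
  rcases mem_insert.1 hx with h | h
  · rw [h]; exact ha
  · obtain ⟨j, _, rfl⟩ := mem_image.1 h
    by_cases hij : i = j
    · subst hij
      rw [Function.update_self]
      omega
    · rw [Function.update_of_ne hij]
      exact ha

lemma star_poly (d : ℕ) (a : ℤ) (ha : a = 0 ∨ a = 1) (T : Finset (Fin d → ℤ))
    (hT : T ⊆ Box d 1) : IsPoly d 1 (star d a ∪ T) := by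
  have hsub : star d a ∪ T ⊆ Box d 1 := union_subset (star_sub d a ha) hT
  refine ⟨?_, fun y hy => ver1 _ hsub y hy, full_mono subset_union_left (star_full d a ha)⟩
  intro y hy i
  rcases mem_Box1.1 (hsub hy) i with h | h <;> rw [h] <;> norm_num

lemma count (d : ℕ) (a : ℤ) (ha : a = 0 ∨ a = 1) (B : Finset (Pol d 1))
    (hB : ∀ T, ∀ hT : T ⊆ Box d 1, (fun _ => 0) ∉ T →
      (⟨star d a ∪ T, star_poly d a ha T hT⟩ : Pol d 1) ∈ B) :
    2 ^ (2 ^ d - (d + 2)) ≤ B.card := by
  classical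
  set X := Box d 1 \ (insert (fun _ => (0 : ℤ)) (star d a)) with hX
  have hXc : 2 ^ d - (d + 2) ≤ X.card := by
    have h1 := le_card_sdiff (insert (fun _ => (0 : ℤ)) (star d a)) (Box d 1)
    have h2 := card_insert_le (fun _ => (0 : ℤ)) (star d a)
    have h3 := star_card d a
    rw [card_Box1] at h1
    rw [hX]
    omega
  refine (Nat.pow_le_pow_right (by norm_num) hXc).trans ?_
  rw [← card_powerset]
  have hXs : ∀ T, T ⊆ X → T ⊆ Box d 1 := fun T hT => hT.trans sdiff_subset
  apply Finset.card_le_card_of_injOn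
    (fun T => if hT : T ⊆ X then (⟨star d a ∪ T, star_poly d a ha T (hXs T hT)⟩ : Pol d 1)
      else ⟨star d a ∪ ∅, star_poly d a ha ∅ (by simp)⟩)
  · intro T hT
    have hT' : T ⊆ X := mem_powerset.1 (mem_coe.1 hT)
    simp only [dif_pos hT']
    apply hB T (hXs T hT')
    intro h
    exact (mem_sdiff.1 (hT' h)).2 (mem_insert_self _ _)
  · intro T hT T' hT' h
    have h1 : T ⊆ X := mem_powerset.1 (mem_coe.1 hT)
    have h2 : T' ⊆ X := mem_powerset.1 (mem_coe.1 hT')
    simp only [dif_pos h1, dif_pos h2, Subtype.mk.injEq] at h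
    have key : ∀ T T' : Finset (Fin d → ℤ), T ⊆ X → star d a ∪ T = star d a ∪ T' → T ⊆ T' := by
      intro T T' hT he x hx
      have h5 : x ∈ star d a ∪ T := mem_union_right _ hx
      rw [he, mem_union] at h5
      rcases h5 with h | h
      · exact absurd (mem_insert_of_mem h) (mem_sdiff.1 (hT hx)).2
      · exact h
    exact Finset.Subset.antisymm (key T T' h1 h) (key T' T h2 h.symm)

lemma vol_ge {d r : ℕ} (B : Finset (Pol d 1))
    (h : 2 * (B.filter (fun V => 2 ^ d - V.1.card ≤ r)).card ≤ B.card) :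
    (r + 1) * B.card ≤ 2 * vol B := by
  classical
  have h1 : (B.filter (fun V => 2 ^ d - V.1.card ≤ r)).card +
      (B.filter (fun V => ¬ 2 ^ d - V.1.card ≤ r)).card = B.card :=
    Finset.card_filter_add_card_filter_not _
  have h2 : (B.filter (fun V => ¬ 2 ^ d - V.1.card ≤ r)).card • (r + 1) ≤
      ∑ V ∈ B.filter (fun V => ¬ 2 ^ d - V.1.card ≤ r), deg V := by
    apply Finset.card_nsmul_le_sum
    intro V hV
    have hV' := (mem_filter.1 hV).2
    have h3 := deg1 V
    omega
  have h3 : ∑ V ∈ B.filter (fun V => ¬ 2 ^ d - V.1.card ≤ r), deg V ≤ vol B :=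
    Finset.sum_le_sum_of_subset (filter_subset _ _)
  rw [smul_eq_mul] at h2
  nlinarith

lemma exists_N (r : ℕ) : ∃ d : ℕ, 4 ≤ d ∧
    2 * ((r + 1) * (2 ^ d) ^ r) ≤ 2 ^ (2 ^ d - (d + 2)) := by
  have h1 := tendsto_pow_const_div_const_pow_of_one_lt (r + 1) (show (1 : ℝ) < 2 by norm_num)
  have hpos : (0 : ℝ) < 1 / (8 * (r + 1)) := by positivity
  obtain ⟨n0, hn0⟩ := Filter.eventually_atTop.1 (h1.eventually (gt_mem_nhds hpos))
  obtain ⟨d, hd4, hdn⟩ : ∃ d, 4 ≤ d ∧ n0 ≤ d := ⟨max 4 n0, le_max_left _ _, le_max_right _ _⟩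
  refine ⟨d, hd4, ?_⟩
  have hd2 : d < 2 ^ d := Nat.lt_two_pow_self
  have hN1 := hn0 (2 ^ d) (by omega)
  set N := 2 ^ d with hN
  have h3 : 8 * (r + 1) * N ^ (r + 1) ≤ 2 ^ N := by
    have h4 : (8 * ((r : ℝ) + 1)) * (N : ℝ) ^ (r + 1) ≤ 2 ^ N := by
      rw [div_lt_div_iff₀ (by positivity) (by positivity)] at hN1
      linarith
    exact_mod_cast h4
  have hd3 : d + 2 ≤ N := by
    obtain ⟨e, rfl⟩ : ∃ e, d = e + 2 := ⟨d - 2, by omega⟩
    have : e < 2 ^ e := Nat.lt_two_pow_self
    rw [hN, pow_add]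
    omega
  have h8 : 2 ^ N = 4 * N * 2 ^ (N - (d + 2)) := by
    have e1 : 4 * N = 2 ^ (d + 2) := by rw [hN, pow_add]; ring
    rw [e1, ← pow_add]
    congr 1
    omega
  have hNpos : 0 < 4 * N := by omega
  rw [h8] at h3
  have h9 : 4 * N * (2 * ((r + 1) * N ^ r)) ≤ 4 * N * 2 ^ (N - (d + 2)) := by
    calc 4 * N * (2 * ((r + 1) * N ^ r)) = 8 * (r + 1) * N ^ (r + 1) := by ring
      _ ≤ _ := h3
  exact Nat.le_of_mul_le_mul_left h9 hNpos

/-- **The graphs `Λ(d, 1)` are not an expander family in the conductance sense.** -/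
theorem result (ε : ℝ) (hε : 0 < ε) : ∃ d : ℕ, 2 ≤ d ∧ ∃ S : Finset (Pol d 1),
    S.Nonempty ∧ 0 < vol S ∧ 2 * vol S ≤ vol (univ : Finset (Pol d 1)) ∧
      (cut S : ℝ) ≤ ε * (vol S : ℝ) := by
  classical
  obtain ⟨r, hr⟩ := exists_nat_gt (2 / ε)
  obtain ⟨d, hN4, hN⟩ := exists_N r
  refine ⟨d, by omega, ?_⟩
  set A : Finset (Pol d 1) := univ.filter (fun V => (fun _ => 0) ∈ V.1) with hA
  set B : Finset (Pol d 1) := univ.filter (fun V => ¬ (fun _ => 0) ∈ V.1) with hB
  have hcA : 2 ^ (2 ^ d - (d + 2)) ≤ A.card := by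
    apply count d 0 (Or.inl rfl)
    intro T hT _
    rw [hA, mem_filter]
    exact ⟨mem_univ _, mem_union_left _ (mem_insert_self _ _)⟩
  have hcB : 2 ^ (2 ^ d - (d + 2)) ≤ B.card := by
    apply count d 1 (Or.inr rfl)
    intro T hT h0
    rw [hB, mem_filter]
    refine ⟨mem_univ _, ?_⟩
    intro h
    rcases mem_union.1 h with h | h
    · rcases mem_insert.1 h with h | h
      · have := congrFun h (⟨0, by omega⟩ : Fin d)
        norm_num at this
      · obtain ⟨j, _, hj⟩ := mem_image.1 h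
        obtain ⟨i, hi⟩ : ∃ i : Fin d, i ≠ j := by
          have : Nontrivial (Fin d) := Fin.nontrivial_iff_two_le.2 (by omega)
          exact exists_ne j
        have := congrFun hj i
        rw [Function.update_of_ne hi] at this
        norm_num at this
    · exact h0 h
  have hvA : (r + 1) * A.card ≤ 2 * vol A := by
    apply vol_ge
    have := small_le d r A
    omega
  have hvB : (r + 1) * B.card ≤ 2 * vol B := by
    apply vol_ge
    have := small_le d r B
    omega
  have hsum : vol A + vol B = vol (univ : Finset (Pol d 1)) := by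
    unfold vol
    rw [hA, hB]
    exact Finset.sum_filter_add_sum_filter_not _ _ _
  have hcutA : cut A ≤ A.card := by
    unfold cut
    apply Finset.card_le_card_of_injOn (fun p => p.1)
    · intro p hp
      exact (mem_filter.1 (mem_coe.1 hp)).2.1
    · have key : ∀ V W : Pol d 1, V ∈ A → W ∉ A → (Lam d 1).Adj V W →
          W.1 = V.1.erase ((fun _ => 0)) := by
        intro V W hV hW hVW
        have hV' : (fun _ => 0) ∈ V.1 := (mem_filter.1 hV).2
        have hW' : (fun _ => 0) ∉ W.1 := fun h => hW (mem_filter.2 ⟨mem_univ _, h⟩)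
        rcases hVW with ⟨x, hx, h⟩ | ⟨x, hx, h⟩
        · exfalso
          apply hW'
          rw [h]
          exact mem_insert_of_mem hV'
        · have h2 : (fun _ => 0) = x := by
            rw [h, mem_insert] at hV'
            rcases hV' with h3 | h3
            · exact h3
            · exact absurd h3 hW'
          rw [h, h2, erase_insert hx]
      rintro ⟨V, W⟩ hp ⟨V', W'⟩ hp' h
      have h1 := (mem_filter.1 (mem_coe.1 hp)).2
      have h2 := (mem_filter.1 (mem_coe.1 hp')).2
      have hVV : V = V' := h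
      subst hVV
      have h3 := key V W h1.1 h1.2.1 h1.2.2
      have h4 := key V W' h2.1 h2.2.1 h2.2.2
      rw [Prod.mk.injEq]
      exact ⟨rfl, Subtype.ext (h3.trans h4.symm)⟩
  have hcutB : cut B ≤ B.card := by
    unfold cut
    apply Finset.card_le_card_of_injOn (fun p => p.1)
    · intro p hp
      exact (mem_filter.1 (mem_coe.1 hp)).2.1
    · have key : ∀ V W : Pol d 1, V ∈ B → W ∉ B → (Lam d 1).Adj V W →
          W.1 = insert ((fun _ => 0)) V.1 := by
        intro V W hV hW hVW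
        have hV' : (fun _ => 0) ∉ V.1 := (mem_filter.1 hV).2
        have hW' : (fun _ => 0) ∈ W.1 := by
          by_contra h
          exact hW (mem_filter.2 ⟨mem_univ _, h⟩)
        rcases hVW with ⟨x, hx, h⟩ | ⟨x, hx, h⟩
        · have h2 : (fun _ => 0) = x := by
            rw [h, mem_insert] at hW'
            rcases hW' with h3 | h3
            · exact h3
            · exact absurd h3 hV'
          rw [h, h2]
        · exfalso
          apply hV'
          rw [h]
          exact mem_insert_of_mem hW'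
      rintro ⟨V, W⟩ hp ⟨V', W'⟩ hp' h
      have h1 := (mem_filter.1 (mem_coe.1 hp)).2
      have h2 := (mem_filter.1 (mem_coe.1 hp')).2
      have hVV : V = V' := h
      subst hVV
      have h3 := key V W h1.1 h1.2.1 h1.2.2
      have h4 := key V W' h2.1 h2.2.1 h2.2.2
      rw [Prod.mk.injEq]
      exact ⟨rfl, Subtype.ext (h3.trans h4.symm)⟩
  have hfin : ∀ S : Finset (Pol d 1), 2 ^ (2 ^ d - (d + 2)) ≤ S.card → (r + 1) * S.card ≤ 2 * vol S →
      cut S ≤ S.card → S.Nonempty ∧ 0 < vol S ∧ (cut S : ℝ) ≤ ε * (vol S : ℝ) := by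
    intro S h1 h2 h3
    have h4 : 0 < 2 ^ (2 ^ d - (d + 2)) := by positivity
    have h5 : 0 < S.card := by omega
    refine ⟨card_pos.1 h5, ?_, ?_⟩
    · by_contra h6
      have h7 : vol S = 0 := by omega
      rw [h7] at h2
      nlinarith
    · have h6 : ((r : ℝ) + 1) * S.card ≤ 2 * vol S := by exact_mod_cast h2
      have h7 : (cut S : ℝ) ≤ S.card := by exact_mod_cast h3
      have h8 : 2 < ε * r := by
        rw [div_lt_iff₀ hε] at hr
        linarith
      have h9 : (0 : ℝ) ≤ S.card := Nat.cast_nonneg _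
      nlinarith [mul_le_mul_of_nonneg_left h6 hε.le, mul_nonneg hε.le h9]
  rcases le_total (2 * vol A) (vol (univ : Finset (Pol d 1))) with h | h
  · obtain ⟨h1, h2, h3⟩ := hfin A hcA hvA hcutA
    exact ⟨A, h1, h2, h, h3⟩
  · obtain ⟨h1, h2, h3⟩ := hfin B hcB hvB hcutB
    exact ⟨B, h1, h2, by omega, h3⟩

end Pool.Agent.Results.MP_f22ace_co.FixedCube
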