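import Pool.Agent.V11152.EXa

/-!
# The graphs of elementary moves on lattice polygons in a square are not expanders

The conductance of `Λ(2, k)` has infimum `0`.
-/

set_option autoImplicit false

open Finset

namespace Pool.Agent.Results.MP_f22ace_co.NotPhiExpander

open Pool.Agent.V11152.EX

noncomputable instance fin (d k : ℕ) : Fintype (Pol d k) := Fintype.ofFinite _

open Classical in
/-- the degree of a polytope in the graph of elementary moves -/
noncomputable def deg {d k : ℕ} (V : Pol d k) : ℕ :=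
  (univ.filter (fun W => (Lam d k).Adj V W)).card

/-- the volume of a set of polytopes -/
noncomputable def vol {d k : ℕ} (S : Finset (Pol d k)) : ℕ := ∑ V ∈ S, deg V

open Classical in
/-- the number of edges between a set of polytopes and its complement -/
noncomputable def cut {d k : ℕ} (S : Finset (Pol d k)) : ℕ :=
  ((univ : Finset (Pol d k × Pol d k)).filter
    (fun p => p.1 ∈ S ∧ p.2 ∉ S ∧ (Lam d k).Adj p.1 p.2)).card

lemma small_le (k r : ℕ) (A : Finset (Pol 2 k)) :
    (A.filter (fun V => V.1.card ≤ r)).card ≤ (r + 1) * ((k + 1) ^ 2) ^ r := by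
  classical
  have h1 : (A.filter (fun V => V.1.card ≤ r)).card ≤
      ((range (r + 1)).biUnion (fun i => powersetCard i (Box 2 k))).card := by
    apply Finset.card_le_card_of_injOn (fun V => V.1)
    · intro V hV
      have hV' := (mem_filter.1 (mem_coe.1 hV)).2
      rw [mem_coe, mem_biUnion]
      exact ⟨V.1.card, by rw [mem_range]; omega, mem_powersetCard.2 ⟨sub_Box V, rfl⟩⟩
    · intro V _ W _ h
      exact Subtype.ext h
  refine h1.trans (card_biUnion_le.trans ?_)
  have h2 : ∀ i ∈ range (r + 1), (powersetCard i (Box 2 k)).card ≤ ((k + 1) ^ 2) ^ r := by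
    intro i hi
    rw [mem_range] at hi
    rw [card_powersetCard, card_Box]
    exact (Nat.choose_le_pow _ _).trans (Nat.pow_le_pow_right (by positivity) (by omega))
  calc _ ≤ ∑ _i ∈ range (r + 1), ((k + 1) ^ 2) ^ r := sum_le_sum h2
    _ = _ := by rw [sum_const, card_range, smul_eq_mul]

/-- subsets of the parabola -/
def big (a : ℕ) (T : Finset ℕ) : Finset (Fin 2 → ℤ) := (insert a (insert 2 (insert 3 T))).image par

lemma big_poly (N a : ℕ) (ha : a ≤ 1) (hN : 3 ≤ N) (T : Finset ℕ) (hT : T ⊆ Icc 4 N) :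
    IsPoly 2 (N ^ 2) (big a T) := by
  have hver := par_ver (insert a (insert 2 (insert 3 T)))
  refine ⟨?_, hver, span_top _ hver ?_⟩
  · intro x hx i
    obtain ⟨j, hj, rfl⟩ := mem_image.1 hx
    have hjN : j ≤ N := by
      rw [mem_insert, mem_insert, mem_insert] at hj
      rcases hj with h | h | h | h
      · omega
      · omega
      · omega
      · exact (mem_Icc.1 (hT h)).2
    have hj2 : j ^ 2 ≤ N ^ 2 := Nat.pow_le_pow_left hjN 2
    have hj3 : j ≤ N ^ 2 := by nlinarith
    fin_cases i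
    · show (0 : ℤ) ≤ (j : ℤ) ∧ (j : ℤ) ≤ ((N ^ 2 : ℕ) : ℤ)
      exact ⟨Int.natCast_nonneg _, by exact_mod_cast hj3⟩
    · show (0 : ℤ) ≤ (j : ℤ) ^ 2 ∧ (j : ℤ) ^ 2 ≤ ((N ^ 2 : ℕ) : ℤ)
      exact ⟨by positivity, by exact_mod_cast hj2⟩
  · unfold big
    rw [card_image_of_injective _ par_inj]
    have h1 : ({a, 2, 3} : Finset ℕ) ⊆ insert a (insert 2 (insert 3 T)) := by
      intro x hx
      simp only [mem_insert, mem_singleton] at hx ⊢
      tauto
    have h2 : ({a, 2, 3} : Finset ℕ).card = 3 := by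
      rw [card_eq_three]
      exact ⟨a, 2, 3, by omega, by omega, by omega, rfl⟩
    exact h2.symm.le.trans (card_le_card h1)

lemma zero_mem_big (a : ℕ) (T : Finset ℕ) (N : ℕ) (hT : T ⊆ Icc 4 N) :
    par 0 ∈ big a T ↔ a = 0 := by
  unfold big
  rw [mem_image]
  constructor
  · rintro ⟨j, hj, h⟩
    have := par_inj h
    subst this
    rw [mem_insert, mem_insert, mem_insert] at hj
    rcases hj with h | h | h | h
    · exact h.symm
    · omega
    · omega
    · have := (mem_Icc.1 (hT h)).1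
      omega
  · rintro rfl
    exact ⟨0, mem_insert_self _ _, rfl⟩

lemma count (N a : ℕ) (ha : a ≤ 1) (hN : 3 ≤ N) (B : Finset (Pol 2 (N ^ 2)))
    (hB : ∀ T, ∀ hT : T ⊆ Icc 4 N, (⟨big a T, big_poly N a ha hN T hT⟩ : Pol 2 (N ^ 2)) ∈ B) :
    2 ^ (N - 3) ≤ B.card := by
  classical
  have h1 : 2 ^ (N - 3) = (Icc 4 N).powerset.card := by
    rw [card_powerset, Nat.card_Icc]
    congr 1
  rw [h1]
  apply Finset.card_le_card_of_injOn
    (fun T => if hT : T ⊆ Icc 4 N then (⟨big a T, big_poly N a ha hN T hT⟩ : Pol 2 (N ^ 2))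
      else ⟨big a ∅, big_poly N a ha hN ∅ (by simp)⟩)
  · intro T hT
    have hT' : T ⊆ Icc 4 N := mem_powerset.1 (mem_coe.1 hT)
    simp only [dif_pos hT']
    exact hB T hT'
  · intro T hT T' hT' h
    have h1 : T ⊆ Icc 4 N := mem_powerset.1 (mem_coe.1 hT)
    have h2 : T' ⊆ Icc 4 N := mem_powerset.1 (mem_coe.1 hT')
    simp only [dif_pos h1, dif_pos h2, Subtype.mk.injEq] at h
    have h3 := Finset.image_injective par_inj h
    have key : ∀ T T' : Finset ℕ, T ⊆ Icc 4 N → insert a (insert 2 (insert 3 T)) =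
        insert a (insert 2 (insert 3 T')) → T ⊆ T' := by
      intro T T' hT he x hx
      have hx4 := (mem_Icc.1 (hT hx)).1
      have h5 : x ∈ insert a (insert 2 (insert 3 T)) := by
        rw [mem_insert, mem_insert, mem_insert]
        exact Or.inr (Or.inr (Or.inr hx))
      rw [he, mem_insert, mem_insert, mem_insert] at h5
      rcases h5 with h | h | h | h
      · omega
      · omega
      · omega
      · exact h
    exact Finset.Subset.antisymm (key T T' h1 h3) (key T' T h2 h3.symm)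

lemma vol_ge {k r : ℕ} (hr : 3 ≤ r) (B : Finset (Pol 2 k))
    (h : 2 * (B.filter (fun V => V.1.card ≤ r)).card ≤ B.card) :
    (r + 1) * B.card ≤ 2 * vol B := by
  classical
  have h1 : (B.filter (fun V => V.1.card ≤ r)).card +
      (B.filter (fun V => ¬ V.1.card ≤ r)).card = B.card :=
    Finset.card_filter_add_card_filter_not _
  have h2 : (B.filter (fun V => ¬ V.1.card ≤ r)).card • (r + 1) ≤
      ∑ V ∈ B.filter (fun V => ¬ V.1.card ≤ r), deg V := by
    apply Finset.card_nsmul_le_sum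
    intro V hV
    have hV' := (mem_filter.1 hV).2
    have h3 : V.1.card ≤ deg V := by
      unfold deg
      convert deg_ge V (by omega)
    omega
  have h3 : ∑ V ∈ B.filter (fun V => ¬ V.1.card ≤ r), deg V ≤ vol B :=
    Finset.sum_le_sum_of_subset (filter_subset _ _)
  rw [smul_eq_mul] at h2
  nlinarith

lemma exists_N (r : ℕ) : ∃ N : ℕ, 4 ≤ N ∧
    2 * ((r + 1) * ((N ^ 2 + 1) ^ 2) ^ r) ≤ 2 ^ (N - 3) := by
  have h1 := tendsto_pow_const_div_const_pow_of_one_lt (6 * r) (show (1 : ℝ) < 2 by norm_num)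
  have hpos : (0 : ℝ) < 1 / (16 * (r + 1)) := by positivity
  have h2 := (h1.eventually (gt_mem_nhds hpos)).and (Filter.eventually_ge_atTop 4)
  obtain ⟨N, hN1, hN2⟩ := h2.exists
  refine ⟨N, hN2, ?_⟩
  have h3 : 16 * (r + 1) * N ^ (6 * r) ≤ 2 ^ N := by
    have h4 : (16 * ((r : ℝ) + 1)) * (N : ℝ) ^ (6 * r) ≤ 2 ^ N := by
      rw [div_lt_div_iff₀ (by positivity) (by positivity)] at hN1
      linarith
    exact_mod_cast h4
  have h5 : (N ^ 2 + 1) ^ 2 ≤ N ^ 6 := by
    have h6 : N ^ 2 + 1 ≤ N ^ 3 := by nlinarith [Nat.pow_le_pow_left hN2 2]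
    calc (N ^ 2 + 1) ^ 2 ≤ (N ^ 3) ^ 2 := Nat.pow_le_pow_left h6 2
      _ = N ^ 6 := by rw [← pow_mul]
  have h7 : ((N ^ 2 + 1) ^ 2) ^ r ≤ N ^ (6 * r) := by
    rw [pow_mul]
    exact Nat.pow_le_pow_left h5 r
  have h8 : 2 ^ N = 8 * 2 ^ (N - 3) := by
    rw [show (8 : ℕ) = 2 ^ 3 by norm_num, ← pow_add]
    congr 1
    omega
  have h9 : (r + 1) * ((N ^ 2 + 1) ^ 2) ^ r ≤ (r + 1) * N ^ (6 * r) :=
    Nat.mul_le_mul_left _ h7
  rw [h8] at h3
  nlinarith

/-- **The graphs `Λ(2, k)` are not an expander family in the conductance sense.** -/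
theorem result (ε : ℝ) (hε : 0 < ε) : ∃ k : ℕ, 1 ≤ k ∧ ∃ S : Finset (Pol 2 k),
    S.Nonempty ∧ 0 < vol S ∧ 2 * vol S ≤ vol (univ : Finset (Pol 2 k)) ∧
      (cut S : ℝ) ≤ ε * (vol S : ℝ) := by
  classical
  obtain ⟨r0, hr0⟩ := exists_nat_gt (2 / ε)
  obtain ⟨r, hr3, hr⟩ : ∃ r : ℕ, 3 ≤ r ∧ 2 / ε < r := by
    refine ⟨max 3 r0, le_max_left _ _, hr0.trans_le ?_⟩
    exact_mod_cast le_max_right _ _
  obtain ⟨N, hN4, hN⟩ := exists_N r
  refine ⟨N ^ 2, by nlinarith, ?_⟩
  set A : Finset (Pol 2 (N ^ 2)) := univ.filter (fun V => par 0 ∈ V.1) with hA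
  set B : Finset (Pol 2 (N ^ 2)) := univ.filter (fun V => ¬ par 0 ∈ V.1) with hB
  have hcA : 2 ^ (N - 3) ≤ A.card := by
    apply count N 0 (by omega) (by omega)
    intro T hT
    rw [hA, mem_filter]
    exact ⟨mem_univ _, (zero_mem_big 0 T N hT).2 rfl⟩
  have hcB : 2 ^ (N - 3) ≤ B.card := by
    apply count N 1 (by omega) (by omega)
    intro T hT
    rw [hB, mem_filter]
    refine ⟨mem_univ _, ?_⟩
    intro h
    exact absurd ((zero_mem_big 1 T N hT).1 h) (by omega)
  have hvA : (r + 1) * A.card ≤ 2 * vol A := by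
    apply vol_ge hr3
    have := small_le (N ^ 2) r A
    omega
  have hvB : (r + 1) * B.card ≤ 2 * vol B := by
    apply vol_ge hr3
    have := small_le (N ^ 2) r B
    omega
  have hsum : vol A + vol B = vol (univ : Finset (Pol 2 (N ^ 2))) := by
    unfold vol
    rw [hA, hB]
    exact Finset.sum_filter_add_sum_filter_not _ _ _
  have hcutA : cut A ≤ A.card := by
    unfold cut
    apply Finset.card_le_card_of_injOn (fun p => p.1)
    · intro p hp
      exact (mem_filter.1 (mem_coe.1 hp)).2.1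
    · have key : ∀ V W : Pol 2 (N ^ 2), V ∈ A → W ∉ A → (Lam 2 (N ^ 2)).Adj V W →
          W.1 = V.1.erase (par 0) := by
        intro V W hV hW hVW
        have hV' : par 0 ∈ V.1 := (mem_filter.1 hV).2
        have hW' : par 0 ∉ W.1 := fun h => hW (mem_filter.2 ⟨mem_univ _, h⟩)
        rcases hVW with ⟨x, hx, h⟩ | ⟨x, hx, h⟩
        · exfalso
          apply hW'
          rw [h]
          exact mem_insert_of_mem hV'
        · have h2 : par 0 = x := by
            rw [h, mem_insert] at hV'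
            rcases hV' with h3 | h3
            · exact h3
            · exact absurd h3 hW'
          rw [h, h2, erase_insert hx]
      rintro ⟨V, W⟩ hp ⟨V', W'⟩ hp' h
      have h1 := (mem_filter.1 (mem_coe.1 hp)).2
      have h2 := (mem_filter.1 (mem_coe.1 hp')).2
      have hVV : V = V' := h
      subst hVV
      have h3 := key V W h1.1 h1.2.1 h1.2.2
      have h4 := key V W' h2.1 h2.2.1 h2.2.2
      rw [Prod.mk.injEq]
      exact ⟨rfl, Subtype.ext (h3.trans h4.symm)⟩
  have hcutB : cut B ≤ B.card := by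
    unfold cut
    apply Finset.card_le_card_of_injOn (fun p => p.1)
    · intro p hp
      exact (mem_filter.1 (mem_coe.1 hp)).2.1
    · have key : ∀ V W : Pol 2 (N ^ 2), V ∈ B → W ∉ B → (Lam 2 (N ^ 2)).Adj V W →
          W.1 = insert (par 0) V.1 := by
        intro V W hV hW hVW
        have hV' : par 0 ∉ V.1 := (mem_filter.1 hV).2
        have hW' : par 0 ∈ W.1 := by
          by_contra h
          exact hW (mem_filter.2 ⟨mem_univ _, h⟩)
        rcases hVW with ⟨x, hx, h⟩ | ⟨x, hx, h⟩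
        · have h2 : par 0 = x := by
            rw [h, mem_insert] at hW'
            rcases hW' with h3 | h3
            · exact h3
            · exact absurd h3 hV'
          rw [h, h2]
        · exfalso
          apply hV'
          rw [h]
          exact mem_insert_of_mem hW'
      rintro ⟨V, W⟩ hp ⟨V', W'⟩ hp' h
      have h1 := (mem_filter.1 (mem_coe.1 hp)).2
      have h2 := (mem_filter.1 (mem_coe.1 hp')).2
      have hVV : V = V' := h
      subst hVV
      have h3 := key V W h1.1 h1.2.1 h1.2.2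
      have h4 := key V W' h2.1 h2.2.1 h2.2.2
      rw [Prod.mk.injEq]
      exact ⟨rfl, Subtype.ext (h3.trans h4.symm)⟩
  have hfin : ∀ S : Finset (Pol 2 (N ^ 2)), 2 ^ (N - 3) ≤ S.card → (r + 1) * S.card ≤ 2 * vol S →
      cut S ≤ S.card → S.Nonempty ∧ 0 < vol S ∧ (cut S : ℝ) ≤ ε * (vol S : ℝ) := by
    intro S h1 h2 h3
    have h4 : 0 < 2 ^ (N - 3) := by positivity
    have h5 : 0 < S.card := by omega
    refine ⟨card_pos.1 h5, ?_, ?_⟩
    · by_contra h6
      have h7 : vol S = 0 := by omega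
      rw [h7] at h2
      nlinarith
    · have h6 : ((r : ℝ) + 1) * S.card ≤ 2 * vol S := by exact_mod_cast h2
      have h7 : (cut S : ℝ) ≤ S.card := by exact_mod_cast h3
      have h8 : 2 < ε * r := by
        rw [div_lt_iff₀ hε] at hr
        linarith
      have h9 : (0 : ℝ) ≤ S.card := Nat.cast_nonneg _
      nlinarith [mul_le_mul_of_nonneg_left h6 hε.le, mul_nonneg hε.le h9]
  rcases le_total (2 * vol A) (vol (univ : Finset (Pol 2 (N ^ 2)))) with h | h
  · obtain ⟨h1, h2, h3⟩ := hfin A hcA hvA hcutA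
    exact ⟨A, h1, h2, h, h3⟩
  · obtain ⟨h1, h2, h3⟩ := hfin B hcB hvB hcutB
    exact ⟨B, h1, h2, by omega, h3⟩

end Pool.Agent.Results.MP_f22ace_co.NotPhiExpander
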